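import Mathlib
import Pool.Agent.Q43.GN.Sec

/-!
# The representation of the symplectic Lie algebra on a part of the second Hodge structure
-/

set_option autoImplicit false
set_option linter.unusedSectionVars false

namespace Pool.Agent.Q43.GM

open Module Matrix Pool.Agent.H204R3.SP Pool.Agent.W437.HC Pool.Agent.W437.HD
  Pool.Agent.W437.HP Pool.Agent.TH131.GHC Pool.Agent.Q43.GN

noncomputable section

variable {B C : Type*} [Fintype B] [DecidableEq B] [Fintype C] [DecidableEq C]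
  {D D2 : Matrix B B ℂ} {z g : Matrix C C ℂ} {Q : Matrix C C ℚ}
  {N : Type*} [AddCommGroup N] [Module ℂ N] [FiniteDimensional ℂ N] [Nontrivial N]
  {L : Submodule ℂ (Matrix B B ℂ × Matrix C C ℂ)} (hL : IsL D D2 z g Q L) (h : PolH D)
  (hQ : IsPol z Q) {inc : N →ₗ[ℂ] (B → ℂ)} (hi : Function.Injective inc)
  {ρ : lieM D ℂ →ₗ[ℂ] End ℂ N} (hinc : ∀ (X : lieM D ℂ) u, X.1 *ᵥ inc u = inc (ρ X u))

include hL h hQ hi hinc in
/-- **The counting theorem** for the part given by the idempotent matrix `E`. -/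
theorem count_E {w : N →ₗ[ℂ] N →ₗ[ℂ] ℂ} (halt : ∀ v, w v v = 0)
    (hnd : ∀ u, (∀ v, w u v = 0) → u = 0) (hsp : ∀ X : lieM D ℂ, IsSp w (ρ X))
    (hfull : ∀ x y, ∃ Y ∈ L, ∀ u, Y.1 *ᵥ inc u = inc (EE w x y u))
    (hA : ∀ u, D2 *ᵥ (D2 *ᵥ inc u) = inc u) {E : Matrix C C ℂ} (hE : E * E = E)
    (hEL : ∀ Y ∈ L, E * Y.2 = Y.2 * E) (hEg : E * g = g * E) (hgz : g * z = z * g)
    (hE0 : ∀ Y ∈ L, ∀ c : ℂ, c ≠ 0 → z * Y.2 - Y.2 * z = c • Y.2 → E * Y.2 = 0 → Y.2 = 0)
    {r : ℕ} (hr : 3 ≤ r) (hrN : 2 * r ≤ finrank ℂ N) :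
    ∃ κ : ℂ, κ ≠ 0 ∧ ∃ d : ℂ, r ≤ finrank ℂ
      ↥(LinearMap.ker ((Matrix.toLin' (E * z) : End ℂ (C → ℂ)) - κ • 1) ⊓
        LinearMap.ker ((Matrix.toLin' g : End ℂ (C → ℂ)) - d • 1)) := by
  classical
  let j : ks L inc →ₗ[ℂ] lieM D ℂ :=
    LinearMap.codRestrict (lieM D ℂ) ((LinearMap.fst ℂ (Matrix B B ℂ) (Matrix C C ℂ)).comp
      (ks L inc).subtype) fun Y => hL.le _ Y.2.1
  let rr : ks L inc →ₗ[ℂ] End ℂ N := ρ ∘ₗ j
  have hrr : ∀ (Y : ks L inc) u, Y.1.1 *ᵥ inc u = inc (rr Y u) := fun Y u => hinc (j Y) u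
  have hinj : Function.Injective rr := by
    rw [injective_iff_map_eq_zero]
    intro Y hY
    have h1 : Y.1 ∈ kr L inc := ⟨Y.2.1, fun u => by
      rw [hrr, hY, LinearMap.zero_apply, map_zero]⟩
    exact Subtype.ext (kr_nd hL h hQ hi hinc h1 fun Y' hY' => by
      rw [Tb_comm]
      exact (mem_ks.1 Y.2).2 Y' hY')
  have heq : ∀ (Y : ks L inc) (A : End ℂ N), (∀ u, Y.1.1 *ᵥ inc u = inc (A u)) → rr Y = A := by
    intro Y A hYA
    ext u
    exact hi (by rw [← hrr, hYA])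
  obtain ⟨g', hg'⟩ := LinearMap.exists_leftInverse_of_injective rr (LinearMap.ker_eq_bot.2 hinj)
  have hg1 : ∀ Y, g' (rr Y) = Y := fun Y => LinearMap.congr_fun hg' Y
  have hS : ∀ x y, ∃ Y : ks L inc, rr Y = EE w x y := by
    intro x y
    obtain ⟨Y, hY, hY2⟩ := hfull x y
    obtain ⟨Y1, hY1, hY3⟩ := ks_sum hL h hQ hi hinc hY
    refine ⟨⟨Y - Y1, hY3⟩, heq _ _ fun u => ?_⟩
    change (Y.1 - Y1.1) *ᵥ inc u = _
    rw [sub_mulVec, hY1.2, sub_zero, hY2]
  have hSg : ∀ x y, rr (g' (EE w x y)) = EE w x y := by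
    intro x y
    obtain ⟨Y, hY⟩ := hS x y
    rw [← hY, hg1]
  let M : N → N → Matrix C C ℂ := fun x y => (g' (EE w x y)).1.2
  have hMdef : ∀ x y, M x y = (g' (EE w x y)).1.2 := fun x y => rfl
  have hML : ∀ x y, (g' (EE w x y)).1 ∈ L := fun x y => (g' (EE w x y)).2.1
  let R : N →ₗ[ℂ] N →ₗ[ℂ] End ℂ (C → ℂ) := LinearMap.mk₂ ℂ
    (fun x y => (Matrix.toLin' (E * (g' (EE w x y)).1.2) : End ℂ (C → ℂ)))
    (fun x x' y => by
      rw [EE_add_left, map_add, Submodule.coe_add, Prod.snd_add, mul_add, map_add])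
    (fun a x y => by
      rw [EE_smul_left, map_smul, Submodule.coe_smul, Prod.smul_snd, mul_smul_comm, map_smul])
    (fun x y y' => by
      rw [EE_add_right, map_add, Submodule.coe_add, Prod.snd_add, mul_add, map_add])
    (fun a x y => by
      rw [EE_smul_right, map_smul, Submodule.coe_smul, Prod.smul_snd, mul_smul_comm, map_smul])
  have hRa : ∀ x y, R x y = (Matrix.toLin' (E * M x y) : End ℂ (C → ℂ)) := fun x y => rfl
  -- brackets
  have hbr0 : ∀ (T : Matrix B B ℂ × Matrix C C ℂ) (hT : T ∈ L) (A : End ℂ N), IsSp w A →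
      (∀ u, T.1 *ᵥ inc u = inc (A u)) → ∀ x y,
      T.2 * M x y - M x y * T.2 = M (A x) y + M x (A y) := by
    intro T hT A hAsp hTA x y
    have h1 := ks_br hL hinc hT (g' (EE w x y)).2
    have h2 : (⟨_, h1⟩ : ks L inc) = g' (EE w (A x) y) + g' (EE w x (A y)) := by
      apply hinj
      rw [map_add, hSg, hSg]
      refine heq _ _ fun u => ?_
      rw [← EE_bracket hAsp]
      change (T.1 * (g' (EE w x y)).1.1 - (g' (EE w x y)).1.1 * T.1) *ᵥ inc u = _
      rw [sub_mulVec, ← mulVec_mulVec, ← mulVec_mulVec, hTA, hrr, hrr, hSg, hTA, ← map_sub]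
      rfl
    have h3 := congrArg (fun Y : ks L inc => Y.1.2) h2
    exact h3
  have hbr : ∀ (T : Matrix B B ℂ × Matrix C C ℂ) (hT : T ∈ L) (A : End ℂ N), IsSp w A →
      (∀ u, T.1 *ᵥ inc u = inc (A u)) → ∀ x y,
      (Matrix.toLin' (E * T.2) : End ℂ (C → ℂ)) * R x y -
        R x y * (Matrix.toLin' (E * T.2) : End ℂ (C → ℂ)) = R (A x) y + R x (A y) := by
    intro T hT A hAsp hTA x y
    have h1 := hbr0 T hT A hAsp hTA x y
    have e1 := hEL T hT
    have e2 : E * M x y = M x y * E := hEL _ (hML x y)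
    have h4 : E * T.2 * (E * M x y) - E * M x y * (E * T.2) = E * M (A x) y + E * M x (A y) := by
      rw [← mul_add, ← h1, mul_sub]
      have e3 : E * T.2 * (E * M x y) = E * (T.2 * M x y) := by
        rw [mul_assoc, ← mul_assoc T.2, ← e1, mul_assoc E T.2, ← mul_assoc E E, hE]
      have e4 : E * M x y * (E * T.2) = E * (M x y * T.2) := by
        rw [mul_assoc, ← mul_assoc (M x y), ← e2, mul_assoc E (M x y), ← mul_assoc E E, hE]
      rw [e3, e4]
    rw [hRa, hRa, hRa, Module.End.mul_eq_comp, Module.End.mul_eq_comp, ← Matrix.toLin'_mul,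
      ← Matrix.toLin'_mul, ← map_sub, ← map_add, h4]
  -- the operator
  have hD2 : D2 ∈ lieM D ℂ := by
    have h1 := hL.le _ hL.mem
    have h2 := (lieM D ℂ).neg_mem h1
    rwa [neg_neg] at h2
  obtain ⟨A, hAdef⟩ : ∃ A : End ℂ N, A = ρ (-⟨D2, hD2⟩) := ⟨_, rfl⟩
  have hAi : ∀ u, (-D2) *ᵥ inc u = inc (A u) := by
    intro u
    rw [hAdef]
    exact hinc (-⟨D2, hD2⟩) u
  have hAA : ∀ v, A (A v) = v := by
    intro v
    apply hi
    rw [← hAi, ← hAi, neg_mulVec, neg_mulVec, mulVec_neg, neg_neg, hA]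
  have hAsp : IsSp w A := by
    rw [hAdef]
    exact hsp _
  refine count w halt hnd A hAA hAsp R (fun x y => ?_) (fun x y x' y' => ?_) ?_
    (Matrix.toLin' (E * z)) (Matrix.toLin' g) (fun x y => ?_) (fun x y => ?_) ?_ hr hrN
  · rw [hRa, hRa, hMdef, EE_comm]
  · have h1 := hbr (g' (EE w x y)).1 (g' (EE w x y)).2.1 (EE w x y) ?_ (fun u => by
      rw [hrr, hSg]) x' y'
    · exact h1
    · obtain ⟨Y, hY⟩ := hS x y
      rw [← hY]
      exact hsp _
  · intro hR0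
    obtain ⟨c, hc, x, hx0, hx⟩ : ∃ c : ℂ, c ≠ 0 ∧ ∃ x : N, x ≠ 0 ∧ A x = c • x := by
      obtain ⟨y, hy⟩ := exists_ne (0 : N)
      by_cases hp : y + A y = 0
      · refine ⟨-1, by norm_num, y, hy, ?_⟩
        rw [neg_one_smul]
        exact eq_neg_of_add_eq_zero_right hp
      · refine ⟨1, one_ne_zero, y + A y, hp, ?_⟩
        rw [one_smul, map_add, hAA, add_comm]
    have h1 : R x x = 0 := by rw [hR0]; rfl
    rw [hRa] at h1
    have h2 : E * M x x = 0 := by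
      exact (map_eq_zero_iff _ (Matrix.toLin').injective).1 h1
    have h3 : z * M x x - M x x * z = (2 * c) • M x x := by
      have h4 := hbr0 (-D2, z) hL.mem A hAsp hAi x x
      have h5 : M (A x) x + M x (A x) = (2 * c) • M x x := by
        rw [hMdef, hMdef, hMdef, hx, EE_smul_left, EE_smul_right, map_smul, ← two_smul ℂ, mul_smul]
        rfl
      rw [← h5]
      exact h4
    have h4 := hE0 _ (hML x x) (2 * c) (mul_ne_zero two_ne_zero hc) h3 h2
    have h5 := hL.inj _ (g' (EE w x x)).2.1 h4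
    have h6 : EE w x x = 0 := by
      rw [← hSg x x]
      refine heq _ _ fun u => ?_
      rw [h5, zero_mulVec, LinearMap.zero_apply, map_zero]
    exact hx0 (EE_eq_zero halt hnd hx0 h6)
  · exact hbr (-D2, z) hL.mem A hAsp hAi x y
  · rw [hRa]
    have h1 : g * (E * M x y) = E * M x y * g := by
      have h2 := hL.comm _ (g' (EE w x y)).2.1
      rw [← mul_assoc, ← hEg, mul_assoc, mul_assoc]
      exact congrArg (fun T => E * T) h2
    rw [Module.End.mul_eq_comp, Module.End.mul_eq_comp, ← Matrix.toLin'_mul, ← Matrix.toLin'_mul, h1]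
  · have h1 : g * (E * z) = E * z * g := by
      rw [← mul_assoc, ← hEg, mul_assoc, mul_assoc, hgz]
    rw [Module.End.mul_eq_comp, Module.End.mul_eq_comp, ← Matrix.toLin'_mul, ← Matrix.toLin'_mul, h1]

end

end Pool.Agent.Q43.GM
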