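import Mathlib
import Pool.Agent.Q43.GN.Ind
import Pool.Agent.Q43.GN.Prod
import Pool.Agent.Q43.GM.Sec

/-!
# Independence of Hodge structures with small Hodge numbers or of CM type
-/

set_option autoImplicit false
set_option linter.unusedSectionVars false

namespace Pool.Agent.Q43.GM

open Module Matrix Pool.Agent.H204R3.SP Pool.Agent.W437.HC Pool.Agent.W437.HD
  Pool.Agent.W437.HP Pool.Agent.W437.HR Pool.Agent.W548.Odd Pool.Agent.TH131.GHC
  Pool.Agent.H204R3.GP Pool.Agent.H204R3.CM Pool.Agent.Q43.GH Pool.Agent.Q43.GN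

noncomputable section

/-- The matrices which commute with all conjugates of `D` are combinations of rational
matrices which commute with `D`. -/
theorem conj_span {R : Type} [Fintype R] [DecidableEq R] {D M : Matrix R R ℂ}
    (hM : ∀ σ : ℂ ≃+* ℂ, M * D.map σ = D.map σ * M) :
    M ∈ Submodule.span ℂ {P : Matrix R R ℂ | ∃ P₀ : Matrix R R ℚ, P = cQ P₀ ∧ P * D = D * P} := by
  let c : Submodule ℂ (Matrix R R ℂ) :=
    { carrier := {M | ∀ σ : ℂ ≃+* ℂ, M * D.map σ = D.map σ * M}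
      zero_mem' := fun σ => by simp
      add_mem' := fun h1 h2 σ => by rw [add_mul, mul_add, h1 σ, h2 σ]
      smul_mem' := fun a M h1 σ => by rw [smul_mul_assoc, mul_smul_comm, h1 σ] }
  refine rational_induction c ?_ (p := fun M => M ∈ Submodule.span ℂ {P : Matrix R R ℂ |
    ∃ P₀ : Matrix R R ℚ, P = cQ P₀ ∧ P * D = D * P}) ?_ (Submodule.zero_mem _)
    (fun X Y hX hY => Submodule.add_mem _ hX hY) (fun a X hX => Submodule.smul_mem _ a hX) M hM
  · intro τ X hX σ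
    have h1 := congrArg (fun M : Matrix R R ℂ => M.map τ) (hX (σ.trans τ.symm))
    simp only [Matrix.map_mul] at h1
    have h2 : (D.map (σ.trans τ.symm)).map τ = D.map σ := by
      ext i j
      simp
    rw [h2] at h1
    exact h1
  · intro u hu
    refine Submodule.subset_span ⟨u, rfl, ?_⟩
    have h1 := hu (RingEquiv.refl ℂ)
    have h2 : D.map (RingEquiv.refl ℂ) = D := by
      ext i j
      rfl
    rw [h2] at h1
    exact h1

variable {B C C' : Type} [Fintype B] [DecidableEq B] [Fintype C] [DecidableEq C]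
  [Fintype C'] [DecidableEq C'] {κ : Type} [Fintype κ] [DecidableEq κ]
  {D : Matrix B B ℂ} {zV : Matrix C C ℂ} {g zW : Matrix C' C' ℂ} {Q : Matrix C' C' ℚ}
  {φ : Matrix C' C' ℂ →ₗ[ℂ] Matrix C C ℂ}

/-- The operators which commute with the rational operators which commute with `zW`. -/
def dc (zW : Matrix C' C' ℂ) : Submodule ℂ (Matrix C' C' ℂ) where
  carrier := {M | ∀ P : Matrix C' C' ℚ, cQ P * zW = zW * cQ P → cQ P * M = M * cQ P}
  zero_mem' := fun P _ => by simp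
  add_mem' := fun h1 h2 P hP => by rw [mul_add, add_mul, h1 P hP, h2 P hP]
  smul_mem' := fun a M h1 P hP => by rw [mul_smul_comm, smul_mul_assoc, h1 P hP]

theorem mem_dc {M : Matrix C' C' ℂ} : M ∈ dc zW ↔
    ∀ P : Matrix C' C' ℚ, cQ P * zW = zW * cQ P → cQ P * M = M * cQ P := Iff.rfl

theorem dc_br {M M' : Matrix C' C' ℂ} (h : M ∈ dc zW) (h' : M' ∈ dc zW) :
    M * M' - M' * M ∈ dc zW := by
  intro P hP
  have h1 := h P hP
  have h2 := h' P hP
  rw [mul_sub, sub_mul, ← mul_assoc, ← mul_assoc, h1, h2, mul_assoc, mul_assoc, h1, h2, mul_assoc,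
    mul_assoc]

theorem dc_gal (σ : ℂ ≃+* ℂ) {M : Matrix C' C' ℂ} (h : M ∈ dc zW) : M.map σ ∈ dc zW := by
  intro P hP
  have h1 := congrArg (fun M : Matrix C' C' ℂ => M.map σ) (h P hP)
  simp only [Matrix.map_mul] at h1
  have h2 : (cQ P).map σ = cQ P := by
    ext i j
    simp [cQ]
  rwa [h2] at h1

theorem dc_comm {M Y : Matrix C' C' ℂ} (hM : ∀ σ : ℂ ≃+* ℂ, M * zW.map σ = zW.map σ * M)
    (hY : Y ∈ dc zW) : M * Y = Y * M := by
  have h1 := conj_span hM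
  clear hM
  induction h1 using Submodule.span_induction with
  | mem P hP =>
    obtain ⟨P₀, rfl, hP⟩ := hP
    exact hY P₀ hP
  | zero => simp
  | add X Y _ _ h1 h2 => rw [add_mul, mul_add, h1, h2]
  | smul a X _ h1 => rw [smul_mul_assoc, mul_smul_comm, h1]

variable (h : PolH D) (hQ : IsPol zW Q) (hφ : IsRep g zW zV φ)
  (hgr : ∀ σ : ℂ ≃+* ℂ, g.map σ = g) (hgz : g * zW = zW * g)
  {S : Submodule ℚ ((κ → B) × C → ℚ)}
  (hS : ∀ s ∈ cxX S, opD κ C D s + opW κ B zV s ∈ cxX S)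

/-- The pairs of operators in the double commutant which preserve a rational subspace. -/
def LM (D : Matrix B B ℂ) (g zW : Matrix C' C' ℂ) (Q : Matrix C' C' ℚ)
    (φ : Matrix C' C' ℂ →ₗ[ℂ] Matrix C C ℂ) (S : Submodule ℚ ((κ → B) × C → ℚ)) :
    Submodule ℂ (Matrix B B ℂ × Matrix C' C' ℂ) :=
  LL D g Q φ S ⊓ (dc zW).comap (LinearMap.snd ℂ _ _)

theorem mem_LM {Y : Matrix B B ℂ × Matrix C' C' ℂ} :
    Y ∈ LM D g zW Q φ S ↔ Y ∈ LL D g Q φ S ∧ Y.2 ∈ dc zW := Iff.rfl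

include h hφ hgr hS in
theorem LM_gal (σ : ℂ ≃+* ℂ) {Y : Matrix B B ℂ × Matrix C' C' ℂ} (hY : Y ∈ LM D g zW Q φ S) :
    (Y.1.map σ, Y.2.map σ) ∈ LM D g zW Q φ S :=
  ⟨LL_gal h hφ hgr hS σ hY.1, dc_gal σ hY.2⟩

include h hQ hφ hgr hgz hS in
theorem isLM {D2 : Matrix B B ℂ} (hD2 : D2 ∈ cmpl D (stb D S)) (hD1 : D - D2 ∈ stb D S) :
    IsL D D2 zW g Q (LM D g zW Q φ S) := by
  have h0 : IsL D D2 zW g Q (LL D g Q φ S) := isL h hQ hφ hgr hgz hS hD2 hD1
  exact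
    { le := fun Y hY => h0.le Y hY.1
      br := fun Y hY Y' hY' => ⟨h0.br Y hY.1 Y' hY'.1, dc_br hY.2 hY'.2⟩
      conj := fun Y hY => LM_gal h hφ hgr hS (starRingAut : ℂ ≃+* ℂ) hY
      inj := fun Y hY => h0.inj Y hY.1
      skew := fun Y hY => h0.skew Y hY.1
      comm := fun Y hY => h0.comm Y hY.1
      mem := ⟨h0.mem, fun P hP => hP⟩ }

section sys

variable {𝒜 : Type} [Fintype 𝒜] [DecidableEq 𝒜] {N : 𝒜 → Type} [∀ a, AddCommGroup (N a)]
  [∀ a, Module ℂ (N a)] [∀ a, FiniteDimensional ℂ (N a)] [∀ a, Nontrivial (N a)]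

include h hQ hφ hgr hgz in
/-- **Independence** of a Hodge structure of weight one with large pieces and a Hodge structure
which is generated by Hodge structures with small Hodge numbers and of CM type. -/
theorem indep_sys (s : Sys (lieM D ℂ) (brL D) N) (inc : ∀ a, N a →ₗ[ℂ] (B → ℂ))
    (prj : ∀ a, (B → ℂ) →ₗ[ℂ] N a) (hip : ∀ y, y = ∑ a, inc a (prj a y))
    (hinc : ∀ a (X : lieM D ℂ) u, X.1 *ᵥ inc a u = inc a (s.ρ a X u))
    (hinj : ∀ a, Function.Injective (inc a)) {r : ℕ} (hr : 3 ≤ r)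
    {E : Matrix C' C' ℚ} (hE : cQ E * cQ E = cQ E) (hEz : cQ E * zW = zW * cQ E)
    (hEg : cQ E * g = g * cQ E)
    (hcm : ∀ σ : ℂ ≃+* ℂ, (1 - cQ E) * (zW * zW.map σ) = (1 - cQ E) * (zW.map σ * zW))
    (hsmall : Small g (cQ E * zW) r)
    (hdim : ∀ a, prj a ≠ 0 → 2 * r ≤ finrank ℂ (N a)) : Indep D zV := by
  classical
  intro n S hS
  replace hS : ∀ s ∈ cxX S, opD (Fin n) C D s + opW (Fin n) B zV s ∈ cxX S := hS
  have hk : GalD D (stb D S) := stb_galD hS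
  obtain ⟨D1, hD1, hD2⟩ := h.cmpl_sum hk (D_mem D)
  set D2 := D - D1 with hD2'
  have hD12 : D - D2 = D1 := by rw [hD2', sub_sub_cancel]
  have hL : IsL D D2 zW g Q (LM D g zW Q φ S) :=
    isLM h hQ hφ hgr hgz hS hD2 (by rw [hD12]; exact hD1)
  by_cases hD20 : D2 = 0
  · intro t ht
    have h1 := hD1.2 t ht
    rw [← hD12, hD20, sub_zero] at h1
    exact h1
  exfalso
  obtain ⟨a, ha0, u0, hu0⟩ : ∃ a, prj a ≠ 0 ∧ ∃ u, D2 *ᵥ inc a u ≠ 0 := by
    by_contra hcon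
    push Not at hcon
    apply hD20
    have h1 : ∀ y : B → ℂ, D2 *ᵥ y = 0 := by
      intro y
      conv_lhs => rw [hip y]
      rw [mulVec_sum]
      refine Finset.sum_eq_zero fun a _ => ?_
      by_cases h0 : prj a = 0
      · rw [h0, LinearMap.zero_apply, map_zero, mulVec_zero]
      · exact hcon a h0 _
    ext i j
    have h2 := congrFun (h1 (Pi.single j 1)) i
    rwa [mulVec_single_one] at h2
  -- the ideal of the first components
  let k : Submodule ℂ (Matrix B B ℂ) := (LM D g zW Q φ S).map (LinearMap.fst ℂ _ _)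
  have hkm : ∀ X, X ∈ k ↔ ∃ Y ∈ LM D g zW Q φ S, Y.1 = X := fun X => Iff.rfl
  have hkG : GalD D k := by
    refine ⟨?_, ?_, ?_⟩
    · rintro X hX
      obtain ⟨Y, hY, rfl⟩ := (hkm X).1 hX
      exact hL.le Y hY
    · rintro σ X hX
      obtain ⟨Y, hY, rfl⟩ := (hkm X).1 hX
      exact (hkm _).2 ⟨_, LM_gal h hφ hgr hS σ hY, rfl⟩
    · rintro X hX
      obtain ⟨Y, hY, rfl⟩ := (hkm X).1 hX
      have h1 := k.neg_mem ((hkm _).2 ⟨_, hL.br _ hL.mem Y hY, rfl⟩)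
      have h2 : D1 * Y.1 - Y.1 * D1 = 0 := h.cmpl_bracket hk hD1 hY.1.1
      have h3 : D * Y.1 - Y.1 * D = -((-D2, zW) * Y - Y * (-D2, zW)).1 := by
        change D * Y.1 - Y.1 * D = -(-D2 * Y.1 - Y.1 * -D2)
        have h4 : D = D1 + D2 := by rw [hD2', add_sub_cancel]
        have h5 : D * Y.1 - Y.1 * D = (D1 * Y.1 - Y.1 * D1) - (-D2 * Y.1 - Y.1 * -D2) := by
          rw [h4]
          noncomm_ring
        rw [h5, h2, zero_sub]
      rw [h3]
      exact h1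
  have hD2k : D2 ∈ k := by
    have h1 := k.neg_mem ((hkm _).2 ⟨_, hL.mem, rfl⟩)
    rwa [neg_neg] at h1
  have hfull : ∀ x y, ∃ Y ∈ LM D g zW Q φ S, ∀ u, Y.1 *ᵥ inc a u = inc a (EE (s.w a) x y u) := by
    intro x y
    have hρ0 : s.ρ a ⟨D2, hkG.le hD2k⟩ ≠ 0 := by
      intro h0
      apply hu0
      have h1 := hinc a ⟨D2, hkG.le hD2k⟩ u0
      rw [h0, LinearMap.zero_apply, map_zero] at h1
      exact h1
    have h1 := ideal_full (s.alt a) (s.nd a) (s.brk a) (s.sp a) (s.full a)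
      ((k.comap (lieM D ℂ).subtype).map (s.ρ a)) ?_
      (Submodule.mem_map_of_mem (f := s.ρ a) (p := k.comap (lieM D ℂ).subtype)
        (r := ⟨D2, hkG.le hD2k⟩) hD2k) (s.sp a _) hρ0 x y
    · obtain ⟨X, hX, hX2⟩ := h1
      obtain ⟨Y, hY, hY2⟩ := (hkm X.1).1 hX
      refine ⟨Y, hY, fun u => ?_⟩
      rw [hY2, hinc a X, hX2]
    · rintro Y _ ⟨W, hW, rfl⟩
      refine ⟨brL D Y W, ?_, s.brk a Y W⟩
      change Y.1 * W.1 - W.1 * Y.1 ∈ k
      have h2 := k.neg_mem (h.ideal hkG hW Y.2)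
      rwa [neg_sub] at h2
  -- the operator
  have hD1a : ∀ u, D1 *ᵥ inc a u = 0 := by
    intro u
    by_cases hu : u = 0
    · rw [hu, map_zero, mulVec_zero]
    obtain ⟨Y, hY, hY2⟩ := hfull u u
    have h2 : D1 * Y.1 - Y.1 * D1 = 0 := h.cmpl_bracket hk hD1 hY.1.1
    have h3 : ∀ v, s.ρ a ⟨D1, hD1.1⟩ (EE (s.w a) u u v) =
        EE (s.w a) u u (s.ρ a ⟨D1, hD1.1⟩ v) := by
      intro v
      apply hinj a
      rw [← hinc a ⟨D1, hD1.1⟩, ← hY2, ← hY2, ← hinc a ⟨D1, hD1.1⟩, mulVec_mulVec, mulVec_mulVec,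
        sub_eq_zero.1 h2]
    have h4 : EE (s.w a) (s.ρ a ⟨D1, hD1.1⟩ u) u = 0 := by
      have h5 := EE_bracket (s.sp a ⟨D1, hD1.1⟩) u u
      rw [EE_comm (s.w a) u (s.ρ a ⟨D1, hD1.1⟩ u), ← two_smul ℂ] at h5
      have h6 : s.ρ a ⟨D1, hD1.1⟩ * EE (s.w a) u u - EE (s.w a) u u * s.ρ a ⟨D1, hD1.1⟩ = 0 := by
        ext v
        rw [LinearMap.sub_apply, Module.End.mul_apply, Module.End.mul_apply, h3, sub_self]
        rfl
      rw [h6] at h5
      exact (smul_eq_zero.1 h5.symm).resolve_left two_ne_zero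
    have h5 := EE_eq_zero (s.alt a) (s.nd a) hu h4
    have h6 := hinc a ⟨D1, hD1.1⟩ u
    rw [h5, map_zero] at h6
    exact h6
  have hD2a : ∀ u, D2 *ᵥ inc a u = D *ᵥ inc a u := by
    intro u
    rw [hD2', sub_mulVec, hD1a, sub_zero]
  have hA : ∀ u, D2 *ᵥ (D2 *ᵥ inc a u) = inc a u := by
    intro u
    rw [hD2a, hinc a ⟨D, D_mem D⟩, hD2a, ← hinc a ⟨D, D_mem D⟩, mulVec_mulVec, h.dd, one_mulVec]
  have hEL : ∀ Y ∈ LM D g zW Q φ S, cQ E * Y.2 = Y.2 * cQ E := fun Y hY => hY.2 E hEz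
  have hEσ : ∀ σ : ℂ ≃+* ℂ, cQ E * zW.map σ = zW.map σ * cQ E := by
    intro σ
    have h1 := congrArg (fun M : Matrix C' C' ℂ => M.map σ) hEz
    simp only [Matrix.map_mul] at h1
    have h2 : (cQ E).map σ = cQ E := by
      ext i j
      simp [cQ]
    rwa [h2] at h1
  have hz' : ∀ Y ∈ LM D g zW Q φ S, ((1 - cQ E) * zW) * Y.2 = Y.2 * ((1 - cQ E) * zW) := by
    intro Y hY
    refine dc_comm (fun σ => ?_) hY.2
    rw [mul_assoc, hcm σ, ← mul_assoc, ← mul_assoc]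
    congr 1
    rw [sub_mul, mul_sub, one_mul, mul_one, hEσ]
  have hE0 : ∀ Y ∈ LM D g zW Q φ S, ∀ c : ℂ, c ≠ 0 → zW * Y.2 - Y.2 * zW = c • Y.2 →
      cQ E * Y.2 = 0 → Y.2 = 0 := by
    intro Y hY c hc h1 h2
    have h3 := hz' Y hY
    have h4 : (1 - cQ E) * (zW * Y.2 - Y.2 * zW) = 0 := by
      have h5 : Y.2 * ((1 - cQ E) * zW) = (1 - cQ E) * (Y.2 * zW) := by
        rw [← mul_assoc, ← mul_assoc, mul_sub, mul_one, sub_mul 1 (cQ E) Y.2, one_mul, hEL Y hY]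
      rw [mul_sub, ← mul_assoc, h3, h5, sub_self]
    rw [h1, mul_smul_comm, sub_mul, one_mul, h2, sub_zero] at h4
    exact (smul_eq_zero.1 h4).resolve_left hc
  obtain ⟨κ, hκ, d, hd⟩ := count_E hL h hQ (hinj a) (hinc a) (s.alt a) (s.nd a) (s.sp a) hfull hA
    hE hEL hEg hgz hE0 hr (hdim a ha0)
  exact absurd hd (not_le.2 (hsmall κ hκ d))

end sys

end

end Pool.Agent.Q43.GM
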