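import Mathlib
import Pool.Agent.Q43.GM.Ind
import Pool.Agent.Q43.GN.Gen

/-!
# Products of abelian varieties with large pieces and Hodge structures generated by Hodge structures
with small Hodge numbers and of CM type
-/

set_option autoImplicit false
set_option linter.unusedSectionVars false

namespace Pool.Agent.Q43.GM

open Module Matrix Pool.Agent.H204R3.SP Pool.Agent.W437.HC Pool.Agent.W437.HD
  Pool.Agent.W437.HP Pool.Agent.W437.HR Pool.Agent.W548.Odd Pool.Agent.TH131.GHC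
  Pool.Agent.H204R3.GP Pool.Agent.H204R3.CM Pool.Agent.Q43.GH Pool.Agent.Q43.GN

noncomputable section

section prod

variable {ι : Type} [Fintype ι] [DecidableEq ι] {g : ι → ℕ}
  (Z : ∀ i, Matrix (Fin (g i)) (Fin (g i)) ℂ)
  {C C' : Type} [Fintype C] [DecidableEq C] [Fintype C'] [DecidableEq C']
  {zV : Matrix C C ℂ} {gr zW : Matrix C' C' ℂ} {Q : Matrix C' C' ℚ}
  {φ : Matrix C' C' ℂ →ₗ[ℂ] Matrix C C ℂ}

/-- **Independence** for products. -/
theorem indep_prod (hZ : ∀ i, (Z i)ᵀ = Z i) (hpos : ∀ i, (imM (Z i)).PosDef)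
    (hp : ∀ i, HasPcs (DZ (Z i))) {r : ℕ} (hr : 3 ≤ r)
    (hrk : ∀ i, ∀ M ∈ endC (Z i), M ≠ 0 → 2 * r ≤ M.rank)
    (hQ : IsPol zW Q) (hφ : IsRep gr zW zV φ) (hgr : ∀ σ : ℂ ≃+* ℂ, gr.map σ = gr)
    (hgz : gr * zW = zW * gr) {E : Matrix C' C' ℚ} (hE : cQ E * cQ E = cQ E)
    (hEz : cQ E * zW = zW * cQ E) (hEg : cQ E * gr = gr * cQ E)
    (hcm : ∀ σ : ℂ ≃+* ℂ, (1 - cQ E) * (zW * zW.map σ) = (1 - cQ E) * (zW.map σ * zW))
    (hsmall : Small gr (cQ E * zW) r) : Indep (DZ (bigD ℂ Z)) zV := by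
  classical
  set b := blocksOf Z hZ hpos with hb
  have hnd := blocksOf_nondeg Z hZ hpos
  have hD2 : ∀ i, DZ (Z i) * DZ (Z i) = 1 := fun i => DZ_sq ((hpos i).isUnit.map Matrix.detMonoidHom)
  choose A hA1 hA2 N w π hst hsum hnt halt hnon hsp hful hπ using hp
  let s : Sys (lieM (DZ (bigD ℂ Z)) ℂ) (brL (DZ (bigD ℂ Z)))
      (N := fun a : (Σ i, A i) => ↥(N a.1 a.2)) :=
    { w := fun a => w a.1 a.2
      ρ := fun a => (rsN (N a.1 a.2) (hst a.1 a.2)) ∘ₗ b.blL a.1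
      alt := fun a x => halt a.1 a.2 x
      nd := fun a x hx => hnon a.1 a.2 x hx
      brk := fun a X Y => by
        rw [LinearMap.comp_apply, b.blL_brL, rsN_brL]
        rfl
      sp := fun a X => hsp a.1 a.2 (b.blL a.1 X)
      full := fun a x y => Blocks.full b a.1 (hnd a.1) (hD2 a.1) (N a.1 a.2) (w a.1 a.2)
        (hst a.1 a.2) (hnt a.1 a.2) (halt a.1 a.2) (hnon a.1 a.2) (hsp a.1 a.2)
        (hful a.1 a.2) x y }
  have hntn : ∀ a : (Σ i, A i), Nontrivial ↥(N a.1 a.2) := fun a => hnt a.1 a.2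
  have hPinj : ∀ i (u : Fin (g i) ⊕ Fin (g i) → ℂ), cK ℂ (b.P i) *ᵥ ((cK ℂ (b.P i))ᵀ *ᵥ u) = u := by
    intro i u
    rw [mulVec_mulVec, b.sameK, one_mulVec]
  refine Pool.Agent.Q43.GM.indep_sys (polOf (bigD_symm hZ) (imM_bigD_posDef Z hpos)) hQ hφ hgr hgz s
    (fun a => (Matrix.mulVecLin (cK ℂ (b.P a.1))ᵀ) ∘ₗ (N a.1 a.2).subtype)
    (fun a => (π a.1 a.2) ∘ₗ (Matrix.mulVecLin (cK ℂ (b.P a.1)))) ?_ ?_ ?_ hr hE hEz hEg hcm hsmall ?_
  · intro y
    have h1 : y = ∑ i, (cK ℂ (b.P i))ᵀ *ᵥ (cK ℂ (b.P i) *ᵥ y) := by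
      conv_lhs => rw [← one_mulVec y, ← b.totK, sum_mulVec]
      exact Finset.sum_congr rfl fun i _ => (mulVec_mulVec _ _ _).symm
    conv_lhs => rw [h1]
    rw [Fintype.sum_sigma]
    refine Finset.sum_congr rfl fun i _ => ?_
    conv_lhs => rw [hsum i (cK ℂ (b.P i) *ᵥ y)]
    rw [mulVec_sum]
    rfl
  · intro a X u
    change X.1 *ᵥ ((cK ℂ (b.P a.1))ᵀ *ᵥ (u : Fin (g a.1) ⊕ Fin (g a.1) → ℂ)) =
      (cK ℂ (b.P a.1))ᵀ *ᵥ (b.bl ℂ a.1 X.1 *ᵥ (u : Fin (g a.1) ⊕ Fin (g a.1) → ℂ))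
    rw [mulVec_mulVec, mulVec_mulVec, b.mul_inc X.2]
  · rintro a u u' huu
    change (cK ℂ (b.P a.1))ᵀ *ᵥ (u : Fin (g a.1) ⊕ Fin (g a.1) → ℂ) =
      (cK ℂ (b.P a.1))ᵀ *ᵥ (u' : Fin (g a.1) ⊕ Fin (g a.1) → ℂ) at huu
    have h1 := congrArg (fun v => cK ℂ (b.P a.1) *ᵥ v) huu
    simp only [hPinj] at h1
    exact Subtype.ext h1
  · intro a ha
    obtain ⟨i, a⟩ := a
    have hπ0 : π i a ≠ 0 := by
      intro h0
      apply ha
      change (π i a) ∘ₗ _ = 0
      rw [h0, LinearMap.zero_comp]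
    let F : (Fin (g i) ⊕ Fin (g i) → ℂ) →ₗ[ℂ] (Fin (g i) ⊕ Fin (g i) → ℂ) :=
      (N i a).subtype ∘ₗ π i a
    have hF0 : LinearMap.toMatrix' F ≠ 0 := by
      intro h0
      apply hπ0
      have h1 : F = 0 := by
        rwa [map_eq_zero_iff _ LinearMap.toMatrix'.injective] at h0
      refine LinearMap.ext fun y => Subtype.ext ?_
      exact LinearMap.congr_fun h1 y
    have hF1 : LinearMap.toMatrix' F ∈ endC (Z i) := by
      refine comm_endC ((hpos i).isUnit.map Matrix.detMonoidHom) fun X hX => ?_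
      have h1 : F ∘ₗ Matrix.toLin' X = Matrix.toLin' X ∘ₗ F := by
        refine LinearMap.ext fun y => ?_
        exact hπ i a X hX y
      have h2 := congrArg LinearMap.toMatrix' h1
      rwa [LinearMap.toMatrix'_comp, LinearMap.toMatrix'_comp, LinearMap.toMatrix'_toLin'] at h2
    have h1 := hrk i _ hF1 hF0
    refine h1.trans ?_
    have h2 : LinearMap.range (Matrix.mulVecLin (LinearMap.toMatrix' F)) ≤ N i a := by
      rintro _ ⟨y, rfl⟩
      have h3 : Matrix.mulVecLin (LinearMap.toMatrix' F) y = F y := by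
        rw [← Matrix.toLin'_apply', Matrix.toLin'_toMatrix']
      rw [h3]
      exact (π i a y).2
    exact Submodule.finrank_mono h2

end prod

section pieces

variable {w : ℕ} (W : Coh w)

/-- The component with the label `d` is of CM type. -/
def CMPiece (d : ℕ) : Prop :=
  ∀ (σ : ℂ ≃+* ℂ) (a b : Fin w), W.dg a = d → (W.z * W.z.map σ) a b = (W.z.map σ * W.z) a b

open Classical in
/-- The projection to the components which are not of CM type. -/
def EW : Matrix (Fin w) (Fin w) ℚ := Matrix.diagonal fun b => if CMPiece W (W.dg b) then 0 else 1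

open Classical in
theorem cQ_EW : cQ (EW W) = Matrix.diagonal fun b => if CMPiece W (W.dg b) then (0 : ℂ) else 1 := by
  ext i j
  rw [cQ, Matrix.map_apply, EW, Matrix.diagonal_apply, Matrix.diagonal_apply]
  split_ifs <;> simp

theorem EW_sq : cQ (EW W) * cQ (EW W) = cQ (EW W) := by
  classical
  rw [cQ_EW, Matrix.diagonal_mul_diagonal]
  congr 1
  funext b
  split_ifs <;> simp

theorem EW_z : cQ (EW W) * W.z = W.z * cQ (EW W) := by
  classical
  rw [cQ_EW]
  ext a b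
  rw [Matrix.diagonal_mul, Matrix.mul_diagonal]
  by_cases hab : W.dg a = W.dg b
  · rw [hab, mul_comm]
  · have h1 : W.z a b = 0 := by
      have h2 := (grM_comm W W.z).1 ((grM_comm W W.z).2 W.graded)
      exact h2 a b hab
    rw [h1, mul_zero, zero_mul]

theorem EW_g : cQ (EW W) * grM W = grM W * cQ (EW W) := by
  classical
  rw [cQ_EW, grM, Matrix.diagonal_mul_diagonal, Matrix.diagonal_mul_diagonal]
  congr 1
  funext b
  rw [mul_comm]

theorem EW_cm (σ : ℂ ≃+* ℂ) :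
    (1 - cQ (EW W)) * (W.z * W.z.map σ) = (1 - cQ (EW W)) * (W.z.map σ * W.z) := by
  classical
  have h1 : (1 - cQ (EW W)) = Matrix.diagonal fun b =>
      if CMPiece W (W.dg b) then (1 : ℂ) else 0 := by
    rw [cQ_EW, ← Matrix.diagonal_one, Matrix.diagonal_sub]
    congr 1
    funext b
    split_ifs <;> simp
  rw [h1]
  ext a b
  rw [Matrix.diagonal_mul, Matrix.diagonal_mul]
  split_ifs with h
  · rw [h σ a b rfl]
  · rw [zero_mul, zero_mul]

variable {W}

theorem small_of {Q : Matrix (Fin w) (Fin w) ℚ} (h : IsPolarization W Q) {r : ℕ} (hr : 0 < r)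
    (hs : ∀ d, CMPiece W d ∨ ∀ k : ℤ, k ≠ 0 → finrank ℂ (hodgeSpace W k d) < r) :
    Small (grM W) (cQ (EW W) * W.z) r := by
  classical
  intro κ hκ d
  by_contra hcon
  rw [not_lt] at hcon
  set U := LinearMap.ker ((Matrix.toLin' (cQ (EW W) * W.z) : End ℂ (Fin w → ℂ)) - κ • 1) ⊓
        LinearMap.ker ((Matrix.toLin' (grM W) : End ℂ (Fin w → ℂ)) - d • 1) with hU
  have hmem : ∀ x, x ∈ U ↔ (cQ (EW W) * W.z) *ᵥ x = κ • x ∧ ∀ b, (W.dg b : ℂ) * x b = d * x b := by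
    intro x
    rw [hU, Submodule.mem_inf, LinearMap.mem_ker, LinearMap.mem_ker, LinearMap.sub_apply,
      LinearMap.sub_apply, sub_eq_zero, sub_eq_zero, Matrix.toLin'_apply, Matrix.toLin'_apply]
    refine and_congr Iff.rfl ⟨fun h1 b => ?_, fun h1 => ?_⟩
    · have h2 := congrFun h1 b
      rw [grM, Matrix.mulVec_diagonal] at h2
      exact h2
    · funext b
      rw [grM, Matrix.mulVec_diagonal]
      exact h1 b
  have hne : U ≠ ⊥ := by
    intro h0
    rw [h0, finrank_bot] at hcon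
    omega
  obtain ⟨x, hx, hx0⟩ := (Submodule.ne_bot_iff _).1 hne
  obtain ⟨h1, h2⟩ := (hmem x).1 hx
  obtain ⟨b, hb⟩ := Function.ne_iff.1 hx0
  have hd : d = (W.dg b : ℂ) := (mul_right_cancel₀ hb (h2 b)).symm
  have hgr := (grM_comm W W.z).1 ((grM_comm W W.z).2 W.graded)
  -- the support
  have hsup : ∀ y ∈ U, ∀ b', W.dg b' ≠ W.dg b → y b' = 0 := by
    intro y hy b' hb'
    have h5 := ((hmem y).1 hy).2 b'
    rw [hd] at h5
    have h6 : ((W.dg b' : ℂ) - W.dg b) * y b' = 0 := by linear_combination h5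
    refine (mul_eq_zero.1 h6).resolve_left fun h7 => hb' ?_
    exact_mod_cast sub_eq_zero.1 h7
  have hEz : ∀ y : Fin w → ℂ, ∀ b', ((cQ (EW W) * W.z) *ᵥ y) b' =
      (if CMPiece W (W.dg b') then (0 : ℂ) else 1) * (W.z *ᵥ y) b' := by
    intro y b'
    rw [← mulVec_mulVec, cQ_EW, Matrix.mulVec_diagonal]
  have hncm : ¬ CMPiece W (W.dg b) := by
    intro hc
    have h3 := congrFun h1 b
    rw [hEz, if_pos hc, zero_mul, Pi.smul_apply, smul_eq_mul] at h3
    exact hb ((mul_eq_zero.1 h3.symm).resolve_left hκ)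
  have hz : ∀ y ∈ U, W.z *ᵥ y = κ • y := by
    intro y hy
    funext b'
    by_cases hb' : W.dg b' = W.dg b
    · have h3 := congrFun ((hmem y).1 hy).1 b'
      rw [hEz, hb', if_neg hncm, one_mul] at h3
      exact h3
    · rw [Pi.smul_apply, hsup y hy b' hb', smul_zero]
      change ∑ c, W.z b' c * y c = 0
      refine Finset.sum_eq_zero fun c _ => ?_
      by_cases hc : W.dg c = W.dg b
      · rw [hgr b' c (by rw [hc]; exact hb'), zero_mul]
      · rw [hsup y hy c hc, mul_zero]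
  obtain ⟨k, rfl⟩ := eig_int (isPol_of h) (hz x hx) hx0
  have hle : U ≤ hodgeSpace W k (W.dg b) := fun y hy => ⟨hz y hy, hsup y hy⟩
  have h3 := Submodule.finrank_mono hle
  have h4 := (hs (W.dg b)).resolve_left hncm k (by
    rintro rfl
    exact hκ (by simp))
  omega

end pieces

end

end Pool.Agent.Q43.GM
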